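import Pool.Agent.Lib.MP_c052b4_al.SmallSupp

/-!
# Farrell-Jones for projective modules given by idempotents of small support

For a regular ring `R` and an arbitrary torsionfree group `G`, every idempotent matrix over `R[G]`
whose entries lie in `R + R a + R b + R c` has its class in the image of `K₀(R) → K₀(R[G])`.
-/

set_option autoImplicit false

namespace Pool.Agent.Results.MP_c052b4_al.SmallSupport

open Pool.Agent.Lib.MP_c052b4_al

universe u v

/-- All the group elements occurring in the entries of the matrix `e` lie in `Y`. -/
def EntriesIn {R : Type u} [Ring R] {G : Type v} [Group G] (Y : Set G)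
    (e : IdemMat (MonoidAlgebra R G)) : Prop :=
  ∀ i j, ∀ g : G, (e.mat i j).coeff g ≠ 0 → g ∈ Y

/-- The class of `e` in `K₀(R[G])` lies in the image of `K₀(R)`. -/
def ClassFromBase {R : Type u} [Ring R] {G : Type v} [Group G]
    (e : IdemMat (MonoidAlgebra R G)) : Prop :=
  ∃ x : KZero R, KZero.map (MonoidAlgebra.singleOneRingHom : R →+* MonoidAlgebra R G) x =
    KZero.cls e

theorem classFromBase_iff {R : Type u} [Ring R] {G : Type v} [Group G]
    (e : IdemMat (MonoidAlgebra R G)) : ClassFromBase e ↔ SI e.mat := by
  unfold SI
  rw [stabInd_iff _ e.idem, ← KZero.cls_eq_kc]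
  rfl

theorem suppIn_of_entriesIn {R : Type u} [Ring R] {G : Type v} [Group G] {Y : Set G}
    {e : IdemMat (MonoidAlgebra R G)} (h : EntriesIn Y e) : SuppIn Y e.mat := by
  intro k hk
  ext i j
  by_contra h1
  exact hk (h i j k h1)

/-- Let `R` be a regular ring, `G` a torsionfree group and `a, b, c ∈ G`.  Every idempotent
matrix over `R[G]` with entries in `R + R a + R b + R c` represents a class of `K₀(R[G])` that
comes from `K₀(R)`. -/
theorem result (R : Type u) [Ring R] (hR : IsRegularRing R)
    (G : Type v) [Group G] (hG : TorsionfreeGroup G) (a b c : G)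
    (e : IdemMat (MonoidAlgebra R G)) (he : EntriesIn {1, a, b, c} e) : ClassFromBase e := by
  rw [classFromBase_iff]
  exact si_smallSupport hR hG a b c (suppIn_of_entriesIn he) e.idem

end Pool.Agent.Results.MP_c052b4_al.SmallSupport
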