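import Pool.Agent.Lib.MP_c052b4_al.Mg.G072

/-!
# A test group with two conjugacy classes for the Farrell-Jones conjecture in degrees `≤ 1`

There is one countable torsionfree group `U` with exactly two conjugacy classes such that for every
regular ring `R` the surjectivity of `K₁(R) → K₁(R[U])` is equivalent to the following: for every
torsionfree group `G` the assembly map `A₁` is surjective, the map `K₀(R) → K₀(R[G])` is bijective
and the negative `K`-groups of `R[G]` vanish.
-/

set_option autoImplicit false

namespace Pool.Agent.Results.MP_c052b4_al.WhiteheadUniversal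

open Pool.Agent.Lib.MP_c052b4_al

universe u v w

/-- The map `K₁(R) → K₁(R[G])` induced by the inclusion of the coefficients. -/
noncomputable def coeffMapOne (R : Type u) [Ring R] (G : Type v) [Group G] :
    K1Grp R →+ K1Grp (MonoidAlgebra R G) :=
  k1Map (MonoidAlgebra.singleOneRingHom : R →+* MonoidAlgebra R G)

/-- The map `K₀(R) → K₀(R[G])` induced by the inclusion of the coefficients. -/
noncomputable def coeffMap (R : Type u) [Ring R] (G : Type v) [Group G] :
    KGrp R →+ KGrp (MonoidAlgebra R G) :=
  kMap (MonoidAlgebra.singleOneRingHom : R →+* MonoidAlgebra R G)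

/-- The assembly map `A₁` is surjective: `K₁(R[G])` is generated by the image of `K₁(R)` and the
classes of the matrices `(1 - e) + g e`, where `e` is an idempotent matrix over `R` and `g ∈ G`. -/
def AssemblyOneSurjective (R : Type u) [Ring R] (G : Type v) [Group G] : Prop := imA R G = ⊤

/-- What the assembly maps `A_n`, `n ≤ 0`, being isomorphisms means for a regular ring `R`:
`K₀(R) → K₀(R[G])` is bijective and `K_{-n}(R[G]) = 0` for all `n ≥ 1`. -/
def AssemblyNonpos (R : Type u) [Ring R] (G : Type v) [Group G] : Prop :=
  Function.Bijective (coeffMap R G) ∧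
    ∀ n : ℕ, 0 < n → Subsingleton ((KMinus n).obj (MonoidAlgebra R G))

/-- There is a countable torsionfree group `U`, nontrivial and with any two nontrivial elements
conjugate, such that for every regular ring `R` the map `K₁(R) → K₁(R[U])` is surjective if and only
if for all torsionfree groups `G` the assembly map `A₁` is surjective, the map
`K₀(R) → K₀(R[G])` is bijective and `K_{-n}(R[G]) = 0` for all `n ≥ 1`. -/
theorem result : ∃ (U : Type) (_ : Group U), Countable U ∧ Nontrivial U ∧ TorsionfreeGroup U ∧
    (∀ x y : U, x ≠ 1 → y ≠ 1 → IsConj x y) ∧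
    ∀ (R : Type u) [Ring R], IsRegularRing R →
      (Function.Surjective (coeffMapOne R U) ↔
        ∀ (G : Type v) [Group G], TorsionfreeGroup G →
          AssemblyOneSurjective R G ∧ AssemblyNonpos R G) := by
  refine ⟨UU, inferInstance, countable_U2 TG0, nontrivial_U2 TG0, torsionfree_U2 TG0,
    fun x y hx hy => conj_U2 TG0 hx hy, ?_⟩
  intro R _ hR
  have hUrange := imA1_eq_range (R := R) (U := UU) (torsionfree_U2 TG0)
    (fun x y hx hy => conj_U2 TG0 hx hy)
  constructor
  · intro h G _ hG
    have htop : imA1 R UU = ⊤ := by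
      rw [hUrange, AddMonoidHom.range_eq_top]
      exact (k1Map_surjective_iff _).1 h
    have hall : ∀ (G' : Type v) [Group G'], TorsionfreeGroup G' → imA1 R G' = ⊤ :=
      fun G' _ hG' => imA1_of_UU hR htop hG'
    have hK0 : ∀ (G' : Type v) [Group G'], TorsionfreeGroup G' → KSurj R G' :=
      fun G' _ hG' => kSurj_of_imA1 (hall _ (torsionfree_int.prod hG'))
    refine ⟨imA_eq_top_iff.2 (hall G hG), ⟨kZero_coeff_injective R G, hK0 G hG⟩, ?_⟩
    intro n hn
    obtain ⟨m, rfl⟩ : ∃ m, n = m + 1 := ⟨n - 1, by omega⟩
    exact subsingleton_kMinus hK0 m G hG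
  · intro h
    have htf : TorsionfreeGroup (ULift.{v} UU) := by
      intro g n hn hg
      apply ULift.down_injective
      exact torsionfree_U2 TG0 g.down n hn (congrArg ULift.down hg)
    have h1 : imA1 R (ULift.{v} UU) = ⊤ := imA_eq_top_iff.1 (h (ULift.{v} UU) htf).1
    have h2 : imA1 R UU = ⊤ := by
      rw [eq_top_iff]
      intro x _
      refine imA1_of_mulEquiv (MulEquiv.ulift : ULift.{v} UU ≃* UU) ?_ x
      intro y
      rw [h1]
      trivial
    rw [hUrange, AddMonoidHom.range_eq_top] at h2
    exact (k1Map_surjective_iff _).2 h2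

end Pool.Agent.Results.MP_c052b4_al.WhiteheadUniversal
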